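import Mathlib
import Pool.Agent.WEq.JacMain

set_option autoImplicit false

/-! The Jacobi symbol and the set of odd nonsquares as length sets of the word equation
X a b Y = Y b a X with one regular constraint on X (a = false, b = true). -/

namespace Pool.Agent.Results.MP_10893b_lc.JacobiLengths

open Pool.Agent.WEq.Jac

/-- (1) For each sign e there is a regular language R over the two letters a = false and b = true
such that the pairs (|X| + 2, |Y| + 2) of the solutions of X a b Y = Y b a X with X in R are
exactly the pairs (n, m), n odd, n, m ≥ 2, with Jacobi symbol (m / n) = e.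
(2) There is a regular language R such that the numbers |X| + 2, for the solutions of the same
equation with X in R, are exactly the odd natural numbers that are not perfect squares. -/
theorem result :
    (∀ e : ℤ, e = 1 ∨ e = -1 → ∃ R : Language Bool, R.IsRegular ∧ ∀ n m : ℕ,
      (∃ X ∈ R, ∃ Y : List Bool, X ++ [false, true] ++ Y = Y ++ [true, false] ++ X ∧
        X.length + 2 = n ∧ Y.length + 2 = m) ↔
      (Odd n ∧ 2 ≤ n ∧ 2 ≤ m ∧ jacobiSym m n = e)) ∧
    (∃ R : Language Bool, R.IsRegular ∧ ∀ n : ℕ,
      (∃ X ∈ R, ∃ Y : List Bool, X ++ [false, true] ++ Y = Y ++ [true, false] ++ X ∧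
        X.length + 2 = n) ↔
      (Odd n ∧ ¬ IsSquare n)) := by
  refine ⟨?_, (dfa 1).accepts, regular 1, spectrum⟩
  rintro e (rfl | rfl)
  · refine ⟨(dfa 0).accepts, regular 0, fun n m => ?_⟩
    have := main 0 (by norm_num) n m
    simpa [sg] using this
  · refine ⟨(dfa 1).accepts, regular 1, fun n m => ?_⟩
    have := main 1 (by norm_num) n m
    simpa [sg] using this

end Pool.Agent.Results.MP_10893b_lc.JacobiLengths
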