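import Mathlib
import Pool.Agent.WEq.Small

set_option autoImplicit false

/-! Small model theorem for the word equation X u Y = Y v X together with an arbitrary Boolean
combination of regular constraints and linear length constraints on X and Y. -/

namespace Pool.Agent.Results.MP_10893b_lc.SmallModel

open Pool.Agent.WEq

/-- tuples of transformations of the states -/
def TM (r s : ℕ) : Type := Fin r → Fin s → Fin s

instance (r s : ℕ) : Fintype (TM r s) := inferInstanceAs (Fintype (Fin r → Fin s → Fin s))
instance (r s : ℕ) : DecidableEq (TM r s) :=
  inferInstanceAs (DecidableEq (Fin r → Fin s → Fin s))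
instance (r s : ℕ) : Mul (TM r s) := ⟨fun f g i => g i ∘ f i⟩

theorem card_TM (r s : ℕ) : Fintype.card (TM r s) = (s ^ s) ^ r := by
  have : Fintype.card (TM r s) = Fintype.card (Fin r → Fin s → Fin s) := rfl
  rw [this]
  simp

/-- explicit bound: n is the length of the constant word u, s the number of states of the
automata, r their number, m the number of length constraints, B bounds the coefficients -/
def smallBound (n s r m B : ℕ) : ℕ :=
  2 ^ (((s ^ s) ^ r) ^ 2 * ((2 * B + 3) ^ 2) ^ m) *
    (2 * (n + 1) * ((6 * n + 1) * B + (s ^ s) ^ r + 3))

/-- Let u, v be words, M_1, ..., M_r deterministic automata with s states, and consider m linear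
length constraints p_j |X| + q_j |Y| > c_j and = c_j. If the word equation X u Y = Y v X has a
solution satisfying some Boolean combination (an arbitrary predicate of the truth values) of
the regular constraints X ∈ L(M_i), Y ∈ L(M_i) and of the length constraints, then it has one
with |X| + |Y| ≤ smallBound. -/
theorem result {α : Type*} {r s m : ℕ} (u v : List α) (M : Fin r → DFA α (Fin s))
    (p q c : Fin m → ℤ) (B : ℕ)
    (hB : ∀ j, (|p j| + |q j|) * ((u.length : ℤ) + 1) + |c j| ≤ B)
    (Ψ : (Fin r → Prop) → (Fin r → Prop) → (Fin m → Prop) → (Fin m → Prop) → Prop) :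
    (∃ X Y : List α, X ++ u ++ Y = Y ++ v ++ X ∧
      Ψ (fun i => X ∈ (M i).accepts) (fun i => Y ∈ (M i).accepts)
        (fun j => p j * (X.length : ℤ) + q j * (Y.length : ℤ) > c j)
        (fun j => p j * (X.length : ℤ) + q j * (Y.length : ℤ) = c j)) ↔
    (∃ X Y : List α, X.length + Y.length ≤ smallBound u.length s r m B ∧
      X ++ u ++ Y = Y ++ v ++ X ∧
      Ψ (fun i => X ∈ (M i).accepts) (fun i => Y ∈ (M i).accepts)
        (fun j => p j * (X.length : ℤ) + q j * (Y.length : ℤ) > c j)
        (fun j => p j * (X.length : ℤ) + q j * (Y.length : ℤ) = c j)) := by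
  constructor
  · rintro ⟨X, Y, hXY, hΨ⟩
    let h : List α → TM r s := fun w i a => (M i).evalFrom a w
    have hm : ∀ x y, h (x ++ y) = h x * h y := by
      intro x y
      funext i a
      show (M i).evalFrom a (x ++ y) = (M i).evalFrom ((M i).evalFrom a x) y
      exact DFA.evalFrom_of_append _ _ _ _
    have hφ : ∀ j, Good (B : ℤ) (p j, q j) := by
      intro j
      left
      have h1 := hB j
      have h2 := abs_nonneg (p j)
      have h3 := abs_nonneg (q j)
      have h4 := abs_nonneg (c j)
      have h5 : (0 : ℤ) ≤ (u.length : ℤ) := by positivity
      constructor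
      · show |p j| ≤ (B : ℤ)
        nlinarith [mul_nonneg h2 h5, mul_nonneg h3 h5]
      · show |q j| ≤ (B : ℤ)
        nlinarith [mul_nonneg h2 h5, mul_nonneg h3 h5]
    obtain ⟨X', Y', h1, ⟨h2, h3, h4⟩, h5⟩ := small_model h hm (B := B) (u := u) (v := v)
      (fun j => (p j, q j)) hφ X Y hXY
    refine ⟨X', Y', ?_, h1, ?_⟩
    · rw [card_TM] at h5
      exact h5
    · have eX : (fun i => X' ∈ (M i).accepts) = (fun i => X ∈ (M i).accepts) := by
        funext i
        have : (M i).eval X' = (M i).eval X := congrFun (congrFun h2 i) (M i).start
        rw [DFA.mem_accepts, DFA.mem_accepts, this]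
      have eY : (fun i => Y' ∈ (M i).accepts) = (fun i => Y ∈ (M i).accepts) := by
        funext i
        have : (M i).eval Y' = (M i).eval Y := congrFun (congrFun h3 i) (M i).start
        rw [DFA.mem_accepts, DFA.mem_accepts, this]
      have key : ∀ j, SignType.sign
          ((p j * (X'.length : ℤ) + q j * (Y'.length : ℤ)) - c j) =
          SignType.sign ((p j * (X.length : ℤ) + q j * (Y.length : ℤ)) - c j) := by
        intro j
        have hc : |c j + (p j + q j) * (u.length : ℤ)| ≤ (B : ℤ) := by
          have a1 : |c j + (p j + q j) * (u.length : ℤ)| ≤ |c j| + |(p j + q j) *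
              (u.length : ℤ)| := abs_add_le _ _
          have a2 : |(p j + q j) * (u.length : ℤ)| ≤ (|p j| + |q j|) * (u.length : ℤ) := by
            rw [abs_mul, abs_of_nonneg (show (0 : ℤ) ≤ (u.length : ℤ) by positivity)]
            exact mul_le_mul_of_nonneg_right (abs_add_le _ _) (by positivity)
          have a3 := hB j
          have h6 := abs_nonneg (p j)
          have h7 := abs_nonneg (q j)
          nlinarith
        have := h4 j _ hc
        simp only [val] at this
        have e1 : p j * ((X'.length : ℤ) + (u.length : ℤ)) + q j * ((Y'.length : ℤ) +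
            (u.length : ℤ)) - (c j + (p j + q j) * (u.length : ℤ)) =
            p j * (X'.length : ℤ) + q j * (Y'.length : ℤ) - c j := by ring
        have e2 : p j * ((X.length : ℤ) + (u.length : ℤ)) + q j * ((Y.length : ℤ) +
            (u.length : ℤ)) - (c j + (p j + q j) * (u.length : ℤ)) =
            p j * (X.length : ℤ) + q j * (Y.length : ℤ) - c j := by ring
        rw [e1, e2] at this
        exact this
      have eg : (fun j => p j * (X'.length : ℤ) + q j * (Y'.length : ℤ) > c j) =
          (fun j => p j * (X.length : ℤ) + q j * (Y.length : ℤ) > c j) := by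
        funext j
        apply propext
        have k := key j
        constructor
        · intro hg
          have : SignType.sign ((p j * (X'.length : ℤ) + q j * (Y'.length : ℤ)) - c j) = 1 :=
            sign_eq_one_iff.mpr (by linarith)
          rw [k] at this
          have := sign_eq_one_iff.mp this
          linarith
        · intro hg
          have : SignType.sign ((p j * (X.length : ℤ) + q j * (Y.length : ℤ)) - c j) = 1 :=
            sign_eq_one_iff.mpr (by linarith)
          rw [← k] at this
          have := sign_eq_one_iff.mp this
          linarith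
      have ee : (fun j => p j * (X'.length : ℤ) + q j * (Y'.length : ℤ) = c j) =
          (fun j => p j * (X.length : ℤ) + q j * (Y.length : ℤ) = c j) := by
        funext j
        apply propext
        have k := key j
        constructor
        · intro hg
          have : SignType.sign ((p j * (X'.length : ℤ) + q j * (Y'.length : ℤ)) - c j) = 0 :=
            sign_eq_zero_iff.mpr (by linarith)
          rw [k] at this
          have := sign_eq_zero_iff.mp this
          linarith
        · intro hg
          have : SignType.sign ((p j * (X.length : ℤ) + q j * (Y.length : ℤ)) - c j) = 0 :=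
            sign_eq_zero_iff.mpr (by linarith)
          rw [← k] at this
          have := sign_eq_zero_iff.mp this
          linarith
      rw [eX, eY, eg, ee]
      exact hΨ
  · rintro ⟨X, Y, _, hXY, hΨ⟩
    exact ⟨X, Y, hXY, hΨ⟩

end Pool.Agent.Results.MP_10893b_lc.SmallModel
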