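import Pool.Agent.WLU.Alph

set_option autoImplicit false

/-!
# Word equations with length equations `|x| = |y|`: undecidable for every alphabet with two letters or more

The same result as the proof of the frozen statement `S14392` (six letters), here for all alphabets with at least
two letters, for conjunctions only, without regular constraints, and with all recursively enumerable sets.
-/

namespace Pool.Agent.Results.MP_10893b_lc.TwoLetters

/-- A side of a word equation over the alphabet `{0, ..., k-1}`: a word whose symbols are variables (`Sum.inl i`,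
the variable `x_i`) and letters (`Sum.inr a`). -/
abbrev Side (k : ℕ) : Type := List (ℕ ⊕ Fin k)

/-- The image of a side under the assignment `x_i ↦ σ i`. -/
def image {k : ℕ} (σ : ℕ → List (Fin k)) (U : Side k) : List (Fin k) :=
  U.flatMap (Sum.elim σ fun a => [a])

/-- A conjunction: a list of word equations `U ≐ V` and a list of pairs `(i, j)`, which stand for `|x_i| = |x_j|`. -/
abbrev Conj (k : ℕ) : Type := List (Side k × Side k) × List (ℕ × ℕ)

/-- The assignment `x_i ↦ σ i` satisfies the conjunction. -/
def Solves {k : ℕ} (σ : ℕ → List (Fin k)) (φ : Conj k) : Prop :=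
  (∀ e ∈ φ.1, image σ e.1 = image σ e.2) ∧ ∀ p ∈ φ.2, (σ p.1).length = (σ p.2).length

/-- For every alphabet with `k ≥ 2` letters: (1) for every recursively enumerable set `K` of natural numbers there is a
conjunction `φ` of word equations and length equations `|x_i| = |x_j|` such that `n ∈ K` iff some assignment with
`x_0 = 0^n` satisfies `φ`; (2) it is undecidable whether a conjunction of word equations and length equations
`|x_i| = |x_j|` is satisfiable. -/
theorem result (k : ℕ) (hk : 2 ≤ k) :
    (∀ K : ℕ → Prop, REPred K → ∃ φ : Conj k, ∀ n : ℕ,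
      K n ↔ ∃ σ : ℕ → List (Fin k), σ 0 = List.replicate n ⟨0, by omega⟩ ∧ Solves σ φ) ∧
    ¬ ComputablePred (fun φ : Conj k => ∃ σ : ℕ → List (Fin k), Solves σ φ) := by
  have h1 : ∀ K : ℕ → Prop, REPred K → ∃ φ : Conj k, ∀ n : ℕ,
      K n ↔ ∃ σ : ℕ → List (Fin k), σ 0 = List.replicate n ⟨0, by omega⟩ ∧ Solves σ φ :=
    fun K hK => WLU.exists_system_k hk hK
  refine ⟨h1, fun hP => ?_⟩
  let K : ℕ → Prop := fun n =>
    (Nat.Partrec.Code.eval (Denumerable.ofNat Nat.Partrec.Code n) 0).Dom
  have hre : REPred K := by
    refine Partrec.dom_re (f := fun n : ℕ =>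
      Nat.Partrec.Code.eval (Denumerable.ofNat Nat.Partrec.Code n) 0) ?_
    exact Nat.Partrec.Code.eval_part.comp (Computable.ofNat Nat.Partrec.Code) (Computable.const 0)
  have hnc : ¬ ComputablePred K := by
    intro hK
    apply ComputablePred.halting_problem 0
    have he : (fun c : Nat.Partrec.Code => (Nat.Partrec.Code.eval c 0).Dom) =
        fun c => K (Encodable.encode c) := by
      funext c
      simp only [K, Denumerable.ofNat_encode]
    rw [he]
    exact ComputablePred.computable_of_manyOneReducible
      ⟨Encodable.encode, Computable.encode, fun _ => Iff.rfl⟩ hK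
  obtain ⟨⟨E, L⟩, hφ⟩ := h1 K hre
  apply hnc
  refine ComputablePred.computable_of_manyOneReducible
    ⟨fun n => ((([Sum.inl 0] : Side k), (List.range n).map
      (fun _ => (Sum.inr ⟨0, by omega⟩ : ℕ ⊕ Fin k))) :: E, L), ?_, fun n => ?_⟩ hP
  · apply Primrec.to_comp
    refine Primrec.pair (Primrec.list_cons.comp (Primrec.pair (Primrec.const _) ?_)
      (Primrec.const _)) (Primrec.const _)
    exact Primrec.list_map Primrec.list_range (Primrec.const _).to₂
  · rw [hφ]
    refine exists_congr fun σ => ?_
    have hrep : image σ ((List.range n).map (fun _ => (Sum.inr ⟨0, by omega⟩ : ℕ ⊕ Fin k))) =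
        List.replicate n (⟨0, by omega⟩ : Fin k) := by
      unfold image
      rw [List.map_const', List.length_range]
      induction n with
      | zero => rfl
      | succ n ih => rw [List.replicate_succ, List.flatMap_cons, ih, List.replicate_succ]; rfl
    have h0 : image σ [Sum.inl 0] = σ 0 := by simp [image]
    unfold Solves
    rw [List.forall_mem_cons, hrep, h0, and_assoc]

end Pool.Agent.Results.MP_10893b_lc.TwoLetters
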